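import Pool.Agent.Mg.F53d700.G12a905

namespace Pool.Agent.Results.MP_c1eb4d_ag.CurveCycles

open Pool.Agent.MP_a9d3bd_q

theorem result (K : Type) [Field K] [IsAlgClosed K] (p : ℕ) (hp : p.Prime) [CharP K p]
    (N r j : ℕ) (e : Fin r → ℕ) (A : Fin r → Matrix (Fin N) (Fin N) K)
    (h : 2 * j + 2 * r + 1 ≤ N) :
    RatEq (Set.range fun i => frobForm (p ^ e i) (A i)) j ⊔ Submodule.span ℚ
      {z | ∃ (T : Finset K) (u : K), T.card ≤ r - 1 ∧
        DefOver (Set.range fun i => frobForm (p ^ e i) (A i)) j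
          ((Set.range fun c : Fin r × Fin N × Fin N => A c.1 c.2.1 c.2.2) ∪ T) {u} z} = ⊤ :=
  curve_cycles K p hp N r j e A h

end Pool.Agent.Results.MP_c1eb4d_ag.CurveCycles
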