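import Pool.Agent.Mg.F53d700.G077283

namespace Pool.Agent.Results.MP_c1eb4d_ag.FrobeniusCycles

open Pool.Agent.MP_a9d3bd_q

theorem result (k : Type) [Field k] (p : ℕ) (hp : p.Prime) [CharP k p] (N r j : ℕ)
    (e : Fin r → ℕ) (A : Fin r → Matrix (Fin N) (Fin N) k) (h : 2 * j + 2 * r + 2 ≤ N) :
    Module.finrank ℚ (CH (Set.range fun i => frobForm (p ^ e i) (A i)) j) = 1 :=
  all_cycles k p hp N r j e A (Or.inl h)

end Pool.Agent.Results.MP_c1eb4d_ag.FrobeniusCycles
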