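import Pool.Agent.Mg.F53d700.Gbfc053

/-!
Milnor K-groups of large degree of a field of finite transcendence degree over a finite field are
torsion, with a bound that depends only on the transcendence degree.
-/

namespace Pool.Agent.Results.MP_c1eb4d_ag.MilnorTorsion

open Pool.Agent.MP_c1eb4d_m

theorem result (k F : Type) [Field k] [Finite k] [Field F] [Algebra k F] (d l n : ℕ)
    (hd : Algebra.trdeg k F ≤ d) (hl : 2 ≤ l)
    (hn : l * (l + 1) ^ d ≤ n ∨ (l = ringChar k ∧ (l + 1) ^ d ≤ n)) (x : KM F)
    (hx : x ∈ Kn F n) : IsOfFinAddOrder x ∧ (addOrderOf x).Coprime l :=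
  main d n l hd hl hn x hx

end Pool.Agent.Results.MP_c1eb4d_ag.MilnorTorsion
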