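import Pool.Agent.Mg.F53d700.Gcab599

namespace Pool.Agent.Results.MP_c1eb4d_ag.UnitaryDL

open Pool.Agent.MP_a9d3bd_h Pool.Agent.MP_a9d3bd_k
open Pool.Agent.MP_a9d3bd_o (CIdx cseg)

theorem result (F k : Type) [Field F] [Fintype F] [Field k] [Finite k] [Algebra F k]
    (m r d : ℕ) (M : Matrix (Fin (m + 2)) (Fin (m + 2)) k) (hM : M.det ≠ 0)
    (w : Fin r → Fin (m + 1)) (J : Finset (Fin (r + 1) × Fin (m + 1)))
    (S : Set (MvPolynomial (CIdx (m + 2) J) k)) (hS : ∀ f ∈ S, ∃ e, f.IsHomogeneous e)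
    (hV : ∀ z : CIdx (m + 2) J → AlgebraicClosure k, (∀ f ∈ S, MvPolynomial.aeval z f = 0) ↔
      ∃ (c : AlgebraicClosure k)
        (v : Fin (r + 1) → Fin (m + 1) → Fin (m + 2) → AlgebraicClosure k),
        UFlags F M w v ∧ z = c • cseg J v)
    (hsm : Smooth S d) (s e : ℕ) :
    ∀ z ∈ Ch S (Fin (s + 1)) e, Cl Sum.inr z → z ∈ Bd S (Fin (s + 1)) e :=
  (main F k m r d M hM w J S hS hV hsm).1 s e

end Pool.Agent.Results.MP_c1eb4d_ag.UnitaryDL
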